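import Mathlib

set_option autoImplicit false

namespace Pool.Agent.Results.MP_a456c8_co.Pendant

open Matrix

def lap {V : Type} [Fintype V] [DecidableEq V] (W : Matrix V V ℝ) : Matrix V V ℝ :=
  diagonal (fun i => ∑ j, W i j) - W

def IsFiedler {V : Type} [Fintype V] (L : Matrix V V ℝ) (φ : V → ℝ) : Prop :=
  φ ≠ 0 ∧ ∑ i, φ i = 0 ∧ ∃ μ : ℝ, L *ᵥ φ = μ • φ ∧
    ∀ (ν : ℝ) (ψ : V → ℝ), ∑ i, ψ i = 0 → L *ᵥ ψ = ν • ψ → μ < ν ∨ ∃ c : ℝ, ψ = c • φ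

def IsExtremum {V : Type} (φ : V → ℝ) (u : V) : Prop := (∀ i, φ i ≤ φ u) ∨ ∀ i, φ u ≤ φ i

def attach {V : Type} [DecidableEq V] (W : Matrix V V ℝ) (v : V) (x : ℝ) :
    Matrix (Option V) (Option V) ℝ
  | some i, some j => W i j
  | some i, none => if i = v then x else 0
  | none, some j => if j = v then x else 0
  | none, none => 0

lemma fied {V : Type} [Fintype V] (L : Matrix V V ℝ) (hs : Lᵀ = L) (φ g : V → ℝ) (μ : ℝ)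
    (h0 : ∑ i, φ i = 0) (h1 : L *ᵥ φ = μ • φ) (h2 : g ⬝ᵥ φ ≠ 0)
    (h3 : ∀ w, ∑ i, w i = 0 → g ⬝ᵥ w = 0 → w ⬝ᵥ L *ᵥ w ≤ μ * (w ⬝ᵥ w) → w = 0) :
    IsFiedler L φ := by
  refine ⟨fun h => h2 (by simp [h]), h0, μ, h1, fun ν ψ a b => ?_⟩
  refine or_iff_not_imp_left.mpr fun hn => ⟨(g ⬝ᵥ ψ) / (g ⬝ᵥ φ), ?_⟩
  have e : μ * (φ ⬝ᵥ ψ) = ν * (φ ⬝ᵥ ψ) := by
    have := dotProduct_mulVec φ L ψ
    rw [b, ← mulVec_transpose, hs, h1] at this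
    simpa using this.symm
  have := h3 ((g ⬝ᵥ φ) • ψ - (g ⬝ᵥ ψ) • φ) (by simp [← Finset.mul_sum, a, h0])
    (by simp [mul_comm]) (by
      have p : 0 ≤ (μ - ν) * ((g ⬝ᵥ φ) ^ 2 * (ψ ⬝ᵥ ψ)) := mul_nonneg (by linarith)
        (mul_nonneg (sq_nonneg _) (Finset.sum_nonneg fun i _ => mul_self_nonneg _))
      simp only [mulVec_sub, mulVec_smul, h1, b, sub_dotProduct, dotProduct_sub, smul_dotProduct,
        dotProduct_smul, smul_eq_mul, dotProduct_comm ψ φ]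
      linear_combination p + (g ⬝ᵥ φ) * (g ⬝ᵥ ψ) * e)
  funext i
  have := congrFun this i
  simp only [Pi.sub_apply, Pi.smul_apply, smul_eq_mul, Pi.zero_apply] at this ⊢
  field_simp
  linarith

def tbl : Fin 10 → Fin 10 → ℕ :=
  ![![0, 0, 1, 0, 1, 0, 0, 0, 1, 1],
    ![0, 0, 0, 0, 0, 1, 1, 0, 0, 1],
    ![1, 0, 0, 0, 1, 0, 1, 1, 0, 0],
    ![0, 0, 0, 0, 0, 1, 0, 0, 1, 0],
    ![1, 0, 1, 0, 0, 0, 0, 0, 0, 0],
    ![0, 1, 0, 1, 0, 0, 1, 1, 0, 0],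
    ![0, 1, 1, 0, 0, 1, 0, 1, 0, 1],
    ![0, 0, 1, 0, 0, 1, 1, 0, 0, 0],
    ![1, 0, 0, 1, 0, 0, 0, 0, 0, 0],
    ![1, 1, 0, 0, 0, 0, 1, 0, 0, 0]]

def GG : SimpleGraph (Fin 10) := ⟨fun i j => tbl i j = 1, ⟨by decide⟩, ⟨by decide⟩⟩

instance : DecidableRel GG.Adj := fun i j => inferInstanceAs (Decidable (tbl i j = 1))

lemma hA (i j : Fin 10) : GG.adjMatrix ℝ i j = tbl i j := by
  have : ∀ i j, tbl i j = 0 ∨ tbl i j = 1 := by decide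
  rw [SimpleGraph.adjMatrix_apply]
  rcases this i j with h | h <;> simp [GG, h]

lemma lap_apply {V : Type} [Fintype V] [DecidableEq V] (W : Matrix V V ℝ) (w : V → ℝ) (i : V) :
    (lap W *ᵥ w) i = ∑ j, W i j * (w i - w j) := by
  rw [lap, sub_mulVec, Pi.sub_apply, mulVec_diagonal]
  simp [mul_sub, Finset.sum_mul, mulVec, dotProduct]

lemma zero_of (w : Fin 10 → ℝ) (h : w 0 ^ 2 + w 1 ^ 2 + w 2 ^ 2 + w 3 ^ 2 + w 4 ^ 2 + w 5 ^ 2 + w 6 ^ 2 + w 7 ^ 2 + w 8 ^ 2 + w 9 ^ 2 ≤ 0) : w = 0 := by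
  funext i
  fin_cases i <;> simp <;> nlinarith [sq_nonneg (w 0), sq_nonneg (w 1), sq_nonneg (w 2), sq_nonneg (w 3), sq_nonneg (w 4), sq_nonneg (w 5), sq_nonneg (w 6), sq_nonneg (w 7), sq_nonneg (w 8), sq_nonneg (w 9)]

lemma c1 (w : Fin 10 → ℝ) : 19 / 20 * (w 0 ^ 2 + w 1 ^ 2 + w 2 ^ 2 + w 3 ^ 2 + w 4 ^ 2 + w 5 ^ 2 + w 6 ^ 2 + w 7 ^ 2 + w 8 ^ 2 + w 9 ^ 2) ≤
    (w 2 - w 0) ^ 2 + (w 4 - w 0) ^ 2 + (w 4 - w 2) ^ 2 + (w 5 - w 1) ^ 2 + (w 5 - w 3) ^ 2 + (w 6 - w 1) ^ 2 + (w 6 - w 2) ^ 2 + (w 6 - w 5) ^ 2 + (w 7 - w 2) ^ 2 + (w 7 - w 5) ^ 2 + (w 7 - w 6) ^ 2 + (w 8 - w 0) ^ 2 + (w 8 - w 3) ^ 2 + (w 9 - w 0) ^ 2 + (w 9 - w 1) ^ 2 + (w 9 - w 6) ^ 2 + (w 0 + w 1 + w 2 + w 3 + w 4 + w 5 + w 6 + w 7 + w 8 + w 9) ^ 2 := by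
  rw [← sub_nonneg]
  refine le_of_le_of_eq (b := (81 / 20 : ℝ) * (w 0 + (20 / 81 : ℝ) * w 1 + (20 / 81 : ℝ) * w 3 + (20 / 81 : ℝ) * w 5 + (20 / 81 : ℝ) * w 6 + (20 / 81 : ℝ) * w 7) ^ 2 +
      (4541 / 1620 : ℝ) * (w 1 + (1620 / 4541 : ℝ) * w 2 + (1220 / 4541 : ℝ) * w 3 + (1620 / 4541 : ℝ) * w 4 + (-400 / 4541 : ℝ) * w 5 + (-400 / 4541 : ℝ) * w 6 + (1220 / 4541 : ℝ) * w 7 + (1620 / 4541 : ℝ) * w 8) ^ 2 +
      (335421 / 90820 : ℝ) * (w 2 + (20 / 101 : ℝ) * w 3 + (-400 / 4141 : ℝ) * w 4 + (1220 / 4141 : ℝ) * w 5 + (8000 / 335421 : ℝ) * w 6 + (-24400 / 335421 : ℝ) * w 7 + (58420 / 335421 : ℝ) * w 8 + (90820 / 335421 : ℝ) * w 9) ^ 2 +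
      (2941 / 2020 : ℝ) * (w 3 + (1620 / 2941 : ℝ) * w 4 + (-800 / 2941 : ℝ) * w 5 + (1620 / 2941 : ℝ) * w 6 + (1220 / 2941 : ℝ) * w 7 + (-800 / 2941 : ℝ) * w 8 + (1620 / 2941 : ℝ) * w 9) ^ 2 +
      (2935021 / 2411620 : ℝ) * (w 4 + (3403620 / 2935021 : ℝ) * w 5 + (1579220 / 2935021 : ℝ) * w 6 + (898820 / 2935021 : ℝ) * w 7 + (2227220 / 2935021 : ℝ) * w 8 + (1579220 / 2935021 : ℝ) * w 9) ^ 2 +
      (100751501 / 58700420 : ℝ) * (w 5 + (-49064800 / 100751501 : ℝ) * w 6 + (-21680800 / 100751501 : ℝ) * w 7 + (-16444380 / 100751501 : ℝ) * w 8 + (9635620 / 100751501 : ℝ) * w 9) ^ 2 +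
      (584006068481 / 163217431620 : ℝ) * (w 6 + (-144815537200 / 584006068481 : ℝ) * w 7 + (107323911220 / 584006068481 : ℝ) * w 8 + (-120456384800 / 584006068481 : ℝ) * w 9) ^ 2 +
      (22391370215741 / 11680121369620 : ℝ) * (w 7 + (8904479200820 / 22391370215741 : ℝ) * w 8 + (4576795648820 / 22391370215741 : ℝ) * w 9) ^ 2 +
      (135661257986981 / 447827404314820 : ℝ) * (w 8 + (247941653913220 / 135661257986981 : ℝ) * w 9) ^ 2 +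
      (1967724736587441 / 2713225159739620 : ℝ) * (w 9) ^ 2) (by positivity) (by ring)

lemma c2 (w : Fin 10 → ℝ) : 11 / 10 * (w 0 ^ 2 + w 1 ^ 2 + w 2 ^ 2 + w 3 ^ 2 + w 4 ^ 2 + w 5 ^ 2 + w 6 ^ 2 + w 7 ^ 2 + w 8 ^ 2 + w 9 ^ 2) ≤
    (w 2 - w 0) ^ 2 + (w 4 - w 0) ^ 2 + (w 4 - w 2) ^ 2 + (w 5 - w 1) ^ 2 + (w 5 - w 3) ^ 2 + (w 6 - w 1) ^ 2 + (w 6 - w 2) ^ 2 + (w 6 - w 5) ^ 2 + (w 7 - w 2) ^ 2 + (w 7 - w 5) ^ 2 + (w 7 - w 6) ^ 2 + (w 8 - w 0) ^ 2 + (w 8 - w 3) ^ 2 + (w 9 - w 0) ^ 2 + (w 9 - w 1) ^ 2 + (w 9 - w 6) ^ 2 + (w 0 + w 1 + w 2 + w 3 + w 4 + w 5 + w 6 + w 7 + w 8 + w 9) ^ 2 + (1 * w 1 + 1 * w 2 + -3 * w 3 + 1 * w 4 + 1 * w 6 + 1 * w 7 + -3 * w 8 + 1 * w 9) ^ 2 := by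
  rw [← sub_nonneg]
  refine le_of_le_of_eq (b := (39 / 10 : ℝ) * (w 0 + (10 / 39 : ℝ) * w 1 + (10 / 39 : ℝ) * w 3 + (10 / 39 : ℝ) * w 5 + (10 / 39 : ℝ) * w 6 + (10 / 39 : ℝ) * w 7) ^ 2 +
      (1421 / 390 : ℝ) * (w 1 + (780 / 1421 : ℝ) * w 2 + (-880 / 1421 : ℝ) * w 3 + (780 / 1421 : ℝ) * w 4 + (-100 / 1421 : ℝ) * w 5 + (10 / 49 : ℝ) * w 6 + (680 / 1421 : ℝ) * w 7 + (-780 / 1421 : ℝ) * w 8 + (390 / 1421 : ℝ) * w 9) ^ 2 +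
      (54029 / 14210 : ℝ) * (w 2 + (-10820 / 54029 : ℝ) * w 3 + (-1390 / 54029 : ℝ) * w 4 + (16210 / 54029 : ℝ) * w 5 + (8410 / 54029 : ℝ) * w 6 + (610 / 54029 : ℝ) * w 7 + (-12820 / 54029 : ℝ) * w 8 + (20620 / 54029 : ℝ) * w 9) ^ 2 +
      (4913261 / 540290 : ℝ) * (w 3 + (-421980 / 4913261 : ℝ) * w 4 + (-100900 / 4913261 : ℝ) * w 5 + (-906280 / 4913261 : ℝ) * w 6 + (-631080 / 4913261 : ℝ) * w 7 + (4095810 / 4913261 : ℝ) * w 8 + (-588980 / 4913261 : ℝ) * w 9) ^ 2 +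
      (85126469 / 49132610 : ℝ) * (w 4 + (56701710 / 85126469 : ℝ) * w 5 + (71880920 / 85126469 : ℝ) * w 6 + (46367120 / 85126469 : ℝ) * w 7 + (-13477620 / 85126469 : ℝ) * w 8 + (68530020 / 85126469 : ℝ) * w 9) ^ 2 +
      (2137318991 / 851264690 : ℝ) * (w 5 + (-1183751400 / 2137318991 : ℝ) * w 6 + (-680306400 / 2137318991 : ℝ) * w 7 + (1249934090 / 2137318991 : ℝ) * w 8 + (-269368710 / 2137318991 : ℝ) * w 9) ^ 2 +
      (65931565569 / 21373189910 : ℝ) * (w 6 + (-22952070890 / 65931565569 : ℝ) * w 7 + (21197284580 / 65931565569 : ℝ) * w 8 + (-7010820330 / 21977188523 : ℝ) * w 9) ^ 2 +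
      (999831171691 / 659315655690 : ℝ) * (w 7 + (595360566620 / 999831171691 : ℝ) * w 8 + (106839217080 / 999831171691 : ℝ) * w 9) ^ 2 +
      (15096690757519 / 9998311716910 : ℝ) * (w 8 + (4276726873880 / 15096690757519 : ℝ) * w 9) ^ 2 +
      (200168188108941 / 150966907575190 : ℝ) * (w 9) ^ 2) (by positivity) (by ring)

theorem result : ∃ (n : ℕ) (G : SimpleGraph (Fin n)) (_ : DecidableRel G.Adj) (v : Fin n) (x : ℝ)
    (φ : Fin n → ℝ) (Φ : Option (Fin n) → ℝ), G.Connected ∧ 0 < x ∧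
    IsFiedler (lap (G.adjMatrix ℝ)) φ ∧ IsExtremum φ v ∧
    IsFiedler (lap (attach (G.adjMatrix ℝ) v x)) Φ ∧ ¬ IsExtremum Φ none := by
  refine ⟨10, GG, inferInstance, 2, 50450534457312 / 738159813857, ![0, 1, 1, -3, 1, 0, 1, 1, -3, 1],
    fun i => i.elim 3153158403582 ![432959097757, 536056397981, 3109737238061, -7002315129235, 3345879872717, -1209824211683, 1240349564717, 1525270401389, -6204391807507, 1073120172221],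
    by decide, by norm_num, fied _ ?_ _ ![0, 1, 1, -3, 1, 0, 1, 1, -3, 1] 1 ?_ ?_ ?_ fun w a b c => ?_, Or.inl fun i => ?_,
    fied _ ?_ _ (fun i => i.elim 1 0) (16 / 17) ?_ ?_ ?_ fun w a b c => ?_, ?_⟩
  · simp [lap]
  · simp [Fin.sum_univ_succ]; norm_num
  · funext i
    simp only [lap_apply, hA]
    fin_cases i <;> simp [tbl, Fin.sum_univ_succ] <;> norm_num
  · simp [dotProduct, Fin.sum_univ_succ]; norm_num
  · simp only [dotProduct, lap_apply, hA] at b c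
    simp [tbl, Fin.sum_univ_succ] at a b c
    have := c2 w
    rw [show w 0 + w 1 + w 2 + w 3 + w 4 + w 5 + w 6 + w 7 + w 8 + w 9 = 0 by linarith, show 1 * w 1 + 1 * w 2 + -3 * w 3 + 1 * w 4 + 1 * w 6 + 1 * w 7 + -3 * w 8 + 1 * w 9 = 0 by linarith] at this
    exact zero_of w (by linarith)
  · fin_cases i <;> simp <;> norm_num
  · ext i j
    rcases i with _ | i <;> rcases j with _ | j <;> simp [lap, attach, diagonal, eq_comm, GG.adj_comm]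
    split_ifs <;> simp_all
  · simp [Fin.sum_univ_succ]; norm_num
  · funext i
    rw [lap_apply]
    rcases i with _ | i
    · simp [attach]; norm_num
    · simp only [Fintype.sum_option, attach, hA]
      fin_cases i <;> simp [tbl, Fin.sum_univ_succ] <;> norm_num
  · simp [dotProduct]
  · simp only [dotProduct, lap_apply, Fintype.sum_option, attach, hA] at a b c
    simp at b
    simp [tbl, Fin.sum_univ_succ, b] at a c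
    have := c1 fun i => w (some i)
    rw [show w (some 0) + w (some 1) + w (some 2) + w (some 3) + w (some 4) + w (some 5) + w (some 6) + w (some 7) + w (some 8) + w (some 9) = 0 by linarith] at this
    have h := zero_of (fun i => w (some i)) (by linarith [sq_nonneg (w (some 2))])
    funext i
    rcases i with _ | i
    exacts [b, congrFun h i]
  · rintro (h | h)
    · have := h (some 4)
      simp at this
      norm_num at this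
    · have := h (some 3)
      simp at this
      norm_num at this

end Pool.Agent.Results.MP_a456c8_co.Pendant
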